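import Pool.Agent.N561.EK.StmX
import Pool.Agent.N282.AX.Edge

/-!
# Project EK (helper561), job EKX/6 (helper891): the complex volume of an edge

The path argument is the one of `Pool.Agent.N282.AX.gps'` (helper282).
-/

set_option autoImplicit false

namespace Pool.Agent.N891.EK

open Pool.Agent.W711.HT hiding XX gd
open Pool.Agent.TH563.CV (S_DER S_BASE GP der rog z1 z2)
open Pool.Agent.N561 (HW SW SR EFW dst sg)
open Pool.Agent.N561.EK
open Pool.Agent.N282.AX (pathW lrW der_base)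
open Pool.Agent.W864.AR (t1 t2)
open Filter Topology Set Metric
open scoped Real

lemma D1_sub {w : ℂ} (h : w ∈ D1) : w ∈ DD := by
  obtain ⟨h1, h2⟩ := h
  refine ⟨?_, ?_⟩
  · have := Complex.abs_re_le_norm w
    linarith
  · linarith

lemma D1_star {w : ℂ} (h : w ∈ D1) {t : ℝ} (h0 : 0 ≤ t) (h1 : t ≤ 1) : (t : ℂ) * w ∈ D1 := by
  obtain ⟨h2, h3⟩ := h
  refine ⟨?_, ?_⟩
  · rw [norm_mul, Complex.norm_real, Real.norm_of_nonneg h0]
    have := norm_nonneg w
    nlinarith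
  · rw [Complex.im_ofReal_mul, abs_mul, abs_of_nonneg h0]
    have := abs_nonneg w.im
    nlinarith

lemma zero_D1 : (0 : ℂ) ∈ D1 := by
  refine ⟨?_, ?_⟩
  · rw [norm_zero]; norm_num
  · rw [Complex.zero_im, abs_zero]; norm_num

lemma DD_open : IsOpen DD := by
  have h1 : Continuous fun w : ℂ => |w.re| := Complex.continuous_re.abs
  have h2 : Continuous fun w : ℂ => |w.im| := Complex.continuous_im.abs
  exact (isOpen_lt h1 continuous_const).inter (isOpen_lt h2 continuous_const)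

lemma dst_zero : dst 0 0 = 1 / 4 := by
  have h1 : Complex.arctan 1 = ((π / 4 : ℝ) : ℂ) := by
    rw [← Real.arctan_one, Complex.ofReal_arctan, Complex.ofReal_one]
  unfold dst
  rw [zero_div, Complex.cos_zero, Complex.sin_zero]
  norm_num
  rw [h1]
  have hpi : (π : ℂ) ≠ 0 := by exact_mod_cast Real.pi_ne_zero
  push_cast
  field_simp

lemma base_zero (hP : POT) (hE : EFE) : GP 0 0 (2 * π * dst 0 0) (sg 0 0) = -(π : ℂ) ^ 2 / 2 := by
  have hh : HW 0 0 (2 * π * dst 0 0) := (hE 0 zero_D1 0 zero_D1).hg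
  have hL : Complex.log (z1 0 (2 * π * dst 0 0)) + Complex.log (1 - z2 0 (2 * π * dst 0 0)) = 0 := by
    rw [(lrW hh).2.1]
    unfold Lg
    rw [sub_zero, add_zero]
    have h1 : Complex.cos (2 * π * dst 0 0 / 2) ≠ 0 := by
      rw [dst_zero, show (2 * (π : ℂ) * (1 / 4) / 2) = ((π / 4 : ℝ) : ℂ) by push_cast; ring,
        ← Complex.ofReal_cos, Real.cos_pi_div_four]
      exact_mod_cast (by positivity : (Real.sqrt 2 / 2) ≠ 0)
    rw [div_self h1, Complex.log_one]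
  have hu : Complex.exp (Complex.I * (2 * π * dst 0 0)) = Complex.I := by
    rw [dst_zero]
    have : Complex.I * (2 * (π : ℂ) * (1 / 4)) = π / 2 * Complex.I := by ring
    rw [this, Complex.exp_pi_div_two_mul_I]
  have e1 : z1 0 (2 * π * dst 0 0) = 1 + Complex.I := by
    unfold z1 t1
    rw [hu, mul_zero, Complex.exp_zero]
    have hI : (1 : ℂ) + Complex.I * 1 ≠ 0 := by
      intro h
      have := congrArg Complex.re h
      simp at this
    rw [div_eq_iff hI]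
    linear_combination (-1) * Complex.I_sq
  have e2 : z2 0 (2 * π * dst 0 0) = (1 + Complex.I) / 2 := by
    unfold z2 t2
    rw [hu, mul_zero, Complex.exp_zero]
    have hI : Complex.I * (1 + 1) ≠ 0 := mul_ne_zero Complex.I_ne_zero (by norm_num)
    rw [div_eq_iff hI]
    linear_combination (-1) * Complex.I_sq
  unfold GP
  rw [hL, e1, e2, hP.zero]
  have hB' : 4 * rog (1 + Complex.I) + 4 * rog ((1 + Complex.I) / 2) =
    4 * π * Pool.Agent.W711.HT.bet * Complex.I - (π : ℂ) ^ 2 / 2 := der_base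
  push_cast
  linear_combination hB'

/-- job EKX/6 -/
theorem gpe' : S_GPE := by
  intro hP hE ψ hψ φ hφ
  rw [← base_zero hP hE]
  have hm1 (t : ℝ) (ht : t ∈ Icc (0 : ℝ) 1) : (t : ℂ) * ψ ∈ D1 := D1_star hψ ht.1 ht.2
  have hm2 (t : ℝ) (ht : t ∈ Icc (0 : ℝ) 1) : (t : ℂ) * φ ∈ D1 := D1_star hφ ht.1 ht.2
  have hopen : IsOpen (DD ×ˢ DD) := DD_open.prod DD_open
  have hγ1 (t : ℝ) : HasDerivAt (fun t : ℝ => (t : ℂ) * ψ) ψ t := by
    simpa using (Complex.ofRealCLM.hasDerivAt (x := t)).mul_const ψ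
  have hγ2 (t : ℝ) : HasDerivAt (fun t : ℝ => (t : ℂ) * φ) φ t := by
    simpa using (Complex.ofRealCLM.hasDerivAt (x := t)).mul_const φ
  have hγ (t : ℝ) : HasDerivAt (fun t : ℝ => ((t : ℂ) * ψ, (t : ℂ) * φ)) (ψ, φ) t :=
    (hγ1 t).prodMk (hγ2 t)
  have key := pathW der zero_lt_one (p := fun t : ℝ => (t : ℂ) * ψ)
    (q := fun t : ℝ => (t : ℂ) * φ)
    (U := fun t : ℝ => 2 * π * dst ((t : ℂ) * ψ) ((t : ℂ) * φ))
    (S := fun t : ℝ => sg ((t : ℂ) * ψ) ((t : ℂ) * φ))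
    (p' := fun _ => ψ) (q' := fun _ => φ) (fun t ht => (hE _ (hm1 t ht) _ (hm2 t ht)).hg)
    (fun t _ => (hγ1 t).hasDerivWithinAt) (fun t _ => (hγ2 t).hasDerivWithinAt) ?_ ?_
  · simp only [Complex.ofReal_one, one_mul, Complex.ofReal_zero, zero_mul] at key
    exact key
  · intro t ht
    have h3 : DifferentiableAt ℂ (fun p : ℂ × ℂ => dst p.1 p.2) ((t : ℂ) * ψ, (t : ℂ) * φ) :=
      hP.dan.differentiableAt (hopen.mem_nhds ⟨D1_sub (hm1 t ht), D1_sub (hm2 t ht)⟩)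
    have h4 := (h3.restrictScalars ℝ).comp t (hγ t).differentiableAt
    exact (h4.const_mul (2 * (π : ℂ))).differentiableWithinAt
  · intro t ht
    have hD1 := D1_sub (hm1 t ht)
    have hD2 := D1_sub (hm2 t ht)
    have h3 : HasFDerivAt (fun p : ℂ × ℂ => sg p.1 p.2) _ ((t : ℂ) * ψ, (t : ℂ) * φ) :=
      (hP.san.differentiableAt (hopen.mem_nhds ⟨hD1, hD2⟩)).hasFDerivAt
    set F := fderiv ℂ (fun p : ℂ × ℂ => sg p.1 p.2) ((t : ℂ) * ψ, (t : ℂ) * φ) with hF
    have f1 : F (1, 0) = -(1 / (2 * π)) * Lg (2 * π * dst ((t : ℂ) * ψ) ((t : ℂ) * φ))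
        ((t : ℂ) * ψ) := by
      have a1 : HasDerivAt (fun z : ℂ => (z, (t : ℂ) * φ)) ((1 : ℂ), (0 : ℂ))
          ((t : ℂ) * ψ) := (hasDerivAt_id _).prodMk (hasDerivAt_const _ _)
      have a2 := HasFDerivAt.comp_hasDerivAt (l := fun p : ℂ × ℂ => sg p.1 p.2)
        ((t : ℂ) * ψ) h3 a1
      exact a2.unique (hP.d1 _ hD1 _ hD2)
    have f2 : F (0, 1) = -(1 / (2 * π)) * Lg (2 * π * dst ((t : ℂ) * ψ) ((t : ℂ) * φ))
        ((t : ℂ) * φ) := by
      have a1 : HasDerivAt (fun z : ℂ => ((t : ℂ) * ψ, z)) ((0 : ℂ), (1 : ℂ))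
          ((t : ℂ) * φ) := (hasDerivAt_const _ _).prodMk (hasDerivAt_id _)
      have a2 := HasFDerivAt.comp_hasDerivAt (l := fun p : ℂ × ℂ => sg p.1 p.2)
        ((t : ℂ) * φ) h3 a1
      exact a2.unique (hP.d2 _ hD1 _ hD2)
    have a3 := HasFDerivAt.comp_hasDerivAt (l := fun p : ℂ × ℂ => sg p.1 p.2) t
      (h3.restrictScalars ℝ) (hγ t)
    refine (a3.congr_deriv ?_).hasDerivWithinAt
    have e : ((ψ, φ) : ℂ × ℂ) = ψ • ((1 : ℂ), (0 : ℂ)) + φ • ((0 : ℂ), (1 : ℂ)) := by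
      ext <;> simp
    rw [ContinuousLinearMap.coe_restrictScalars', e, map_add, map_smul, map_smul, f1, f2,
      smul_eq_mul, smul_eq_mul]
    ring

end Pool.Agent.N891.EK
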